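import Pool.Agent.H438R3.BSD.Jac2

/-!
# The leading term of `L(J, s)` at `s = 1` for hyperelliptic Jacobians, from numbers of points

Let `J` be the Jacobian of the hyperelliptic curve `C : y² = f(x)` over `ℚ` (any genus `g`), `F` the
entire continuation of its (incomplete) `L`-function, of polynomial growth in `Re s ≥ 1`, `m` its
order of vanishing at `s = 1` and `l = lim F(s) / (s - 1) ^ m`. Let `EP(n)` be the product of
`#J(𝔽_p) / p^g` over the good primes `p ≤ n`, and `SP(n)` the sum of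
`(q + 1 - #C(𝔽_q)) / (k q)` over the powers `q = p ^ k ≤ n` of the good primes. Let `LA`
and `LS` be the logarithmic averages of `log EP(n) - κ log log n` and of `-SP(n) - κ log log n`.
Then for every real `κ` the following are equivalent:

1. `F(s) ≠ 0` for `Re s > 1`, and `κ = m`;
2. `κ ≤ m` and `LA` is bounded above;
3. `LA` is bounded;
4. `κ ≤ m` and `LS` is bounded above;
5. `LS` converges;
6. `LS` converges to `κ γ - log |l|`.

Moreover for `Λ > 0` the averages `LS` converge to `κ γ - log Λ` if and only if `F(s) ≠ 0` for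
`Re s > 1`, `κ = m` and `|l| = Λ`. For `κ` the rank and `Λ` the value predicted by the conjecture
this is an elementary statement about numbers of points of `C` over finite fields.
-/

set_option autoImplicit false

open Filter Topology

namespace Pool.Agent.Results.MP_dfae13_nt.JacobianLeadingTerm

open Pool.Agent.H438R3.BSD.Jac

/-- See the introduction. -/
theorem result (f : Polynomial ℤ) (hd : 1 ≤ f.natDegree) (F : ℂ → ℂ) (hF : IsL f F)
    (hgr : ∃ C A : ℝ, ∀ s : ℂ, 1 ≤ s.re → ‖F s‖ ≤ C * (1 + ‖s‖) ^ A) :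
    ∃ (m : ℕ) (l : ℂ), analyticOrderAt F 1 = m ∧ l ≠ 0 ∧
      Tendsto (fun s : ℂ => F s / (s - 1) ^ m) (𝓝[≠] 1) (𝓝 l) ∧
      (∀ κ : ℝ, List.TFAE [
        (∀ s : ℂ, 1 < s.re → F s ≠ 0) ∧ κ = m,
        κ ≤ m ∧ ∃ C : ℝ, ∀ n : ℕ, LA f κ n ≤ C,
        ∃ C : ℝ, ∀ n : ℕ, |LA f κ n| ≤ C,
        κ ≤ m ∧ ∃ C : ℝ, ∀ n : ℕ, LS f κ n ≤ C,
        ∃ t : ℝ, Tendsto (fun n : ℕ => LS f κ n) atTop (𝓝 t),
        Tendsto (fun n : ℕ => LS f κ n) atTop
          (𝓝 (κ * Real.eulerMascheroniConstant - Real.log ‖l‖))]) ∧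
      ∀ κ Λ : ℝ, 0 < Λ →
        (((∀ s : ℂ, 1 < s.re → F s ≠ 0) ∧ κ = m ∧ ‖l‖ = Λ) ↔
          Tendsto (fun n : ℕ => LS f κ n) atTop
            (𝓝 (κ * Real.eulerMascheroniConstant - Real.log Λ))) := by
  obtain ⟨m, l, hm, hl, hlim, H⟩ := equivJ f hd hF hgr
  have e5 : ∀ κ : ℝ, ((∀ s : ℂ, 1 < s.re → F s ≠ 0) ∧ κ = m) ↔
      Tendsto (fun n : ℕ => LS f κ n) atTop
        (𝓝 (κ * Real.eulerMascheroniConstant - Real.log ‖l‖)) := fun κ => (H κ).out 0 5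
  have e4 : ∀ κ : ℝ, ((∀ s : ℂ, 1 < s.re → F s ≠ 0) ∧ κ = m) ↔
      ∃ t : ℝ, Tendsto (fun n : ℕ => LS f κ n) atTop (𝓝 t) := fun κ => (H κ).out 0 4
  refine ⟨m, l, hm, hl, hlim, H, fun κ Λ hΛ => ⟨?_, fun h => ?_⟩⟩
  · rintro ⟨h1, h2, h3⟩
    have h4 := (e5 κ).1 ⟨h1, h2⟩
    rwa [h3] at h4
  · obtain ⟨h1, h2⟩ := (e4 κ).2 ⟨_, h⟩
    refine ⟨h1, h2, ?_⟩
    have h4 := (e5 κ).1 ⟨h1, h2⟩
    have h5 := tendsto_nhds_unique h4 h
    have h6 : Real.log ‖l‖ = Real.log Λ := by linarith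
    exact Real.log_injOn_pos (norm_pos_iff.2 hl) hΛ h6

end Pool.Agent.Results.MP_dfae13_nt.JacobianLeadingTerm
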