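import Pool.Agent.H230R4.BSD.TJac
import Pool.Agent.H230R4.BSD.TMul

/-!
# The leading coefficient of `L(J, s)` at `s = 1` as a limit point of truncated Euler products

Let `C : y² = f(x)` be a hyperelliptic curve over `ℚ`, `f ∈ ℤ[x]`, `J` its Jacobian, and suppose that the
`L`-function of `J`, the product over the primes of good reduction, has an entire continuation `F`.
Let `m` be its order and `l = lim F(s) / (s - 1) ^ m` its leading coefficient at `s = 1`.  Let `T(x)` be
the sum of `-(q + 1 - #C(𝔽_q)) / (k q)` over the powers `q = p ^ k ≤ x`, `k ≥ 1`, of the good primes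
`p`; `e ^ (-T(x))` is the Euler product at `s = 1` truncated at the prime powers `≤ x`, and one expects
`e ^ (-T(x)) (e ^ γ log x) ^ m → |l|`.

No hypothesis on the growth of `F` or on its zeros is made, unless said explicitly.  We prove:

1. the upper limit of `T(x) - m log log x`, and also the upper limit of its logarithmic averages
`LM(x)`, is at least `m γ - log |l|`;

2. if `F` has no real zero `σ > 1`, then `m γ - log |l|` is a limit point of `T(x) - m log log x` and
of its logarithmic averages; in other words `|l|` is the limit of `e ^ (-T(x)) (e ^ γ log x) ^ m` along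
a sequence of `x` tending to infinity;

3. if `T(x) - m log log x` is bounded above (or if it is bounded below and `F` has no real zero
`σ > 1`), then `F` has no zeros with `Re s > 1` and the logarithmic averages of `T(x) - m log log x`
converge to `m γ - log |l|`.
-/

set_option autoImplicit false

open Filter Topology

namespace Pool.Agent.Results.MP_dfae13_nt.LimitPoints

open Pool.Agent.H438R3.BSD.Jac (IsL)
open Pool.Agent.H230R4.BSD (LM)
open Pool.Agent.H230R4.BSD.TJac (T)

/-- See the introduction. -/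
theorem result (f : Polynomial ℤ) (hd : 1 ≤ f.natDegree) (F : ℂ → ℂ) (hF : IsL f F) :
    ∃ (m : ℕ) (l : ℂ), analyticOrderAt F 1 = m ∧ l ≠ 0 ∧
    Tendsto (fun s => F s / (s - 1) ^ m) (𝓝[≠] 1) (𝓝 l) ∧
    (∀ c < m * Real.eulerMascheroniConstant - Real.log ‖l‖,
      (∃ᶠ n : ℕ in atTop, c < T f n - m * Real.log (Real.log n)) ∧
      ∃ᶠ n : ℕ in atTop, c < LM (T f) m n) ∧
    ((∀ σ : ℝ, 1 < σ → F σ ≠ 0) →
      (∃ φ : ℕ → ℕ, StrictMono φ ∧
        Tendsto (fun n => (Real.exp Real.eulerMascheroniConstant * Real.log (φ n)) ^ m *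
          Real.exp (-T f (φ n))) atTop (𝓝 ‖l‖)) ∧
      ∃ φ : ℕ → ℕ, StrictMono φ ∧ Tendsto (fun n => LM (T f) m (φ n)) atTop
        (𝓝 (m * Real.eulerMascheroniConstant - Real.log ‖l‖))) ∧
    ((∃ C, ∀ᶠ n : ℕ in atTop, T f n - m * Real.log (Real.log n) ≤ C) ∨
      ((∀ σ : ℝ, 1 < σ → F σ ≠ 0) ∧
        ∃ C, ∀ᶠ n : ℕ in atTop, C ≤ T f n - m * Real.log (Real.log n)) →
      (∀ s : ℂ, 1 < s.re → F s ≠ 0) ∧
      Tendsto (LM (T f) m) atTop (𝓝 (m * Real.eulerMascheroniConstant - Real.log ‖l‖))) := by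
  obtain ⟨m, l, hm, hl, hlim, h1, h2, h3⟩ := Pool.Agent.H230R4.BSD.TJac.main f hd hF
  refine ⟨m, l, hm, hl, hlim, h1, fun hreal => ?_, h3⟩
  obtain ⟨⟨φ, hφ, h4⟩, h5⟩ := h2 hreal
  exact ⟨⟨φ, hφ, Pool.Agent.H230R4.BSD.mulT hl hφ h4⟩, h5⟩

end Pool.Agent.Results.MP_dfae13_nt.LimitPoints
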